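import Pool.Agent.H19.KL.Stmts

set_option autoImplicit false

open MeasureTheory Set
open scoped ContDiff

namespace Pool.Agent.H19.KL

open Pool.Agent.H84 Pool.Agent.H84.Sym Pool.Agent.H84.Sym.P2x Pool.Agent.H84.Sym.C29

section lemmas

variable {E : Type*} [NormedAddCommGroup E] [InnerProductSpace ℝ E]
    [FiniteDimensional ℝ E] [MeasurableSpace E] [BorelSpace E]

omit [FiniteDimensional ℝ E] [MeasurableSpace E] [BorelSpace E] in
theorem dec_gc_inner (w : E) : GC (fun x : E => (inner ℝ x w : ℝ)) := by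
  refine ⟨continuous_id.inner continuous_const, ?_⟩
  refine Gr.of_le (Gr.mul (Gr.nrm (H := E)) (Gr.of_bdd (A := |‖w‖|) fun _ => le_rfl)) ?_
  intro x
  rw [abs_mul, abs_norm, abs_norm]
  exact abs_real_inner_le_norm x w

theorem dec_var {U : E → ℝ} {s : ℝ} (h : Adm U s) {F : E → ℝ} (hF : GC F) (y : E) :
    av U s F y ^ 2 ≤ av U s (fun x => F x ^ 2) y := by
  set m := av U s F y with hm
  have h1 : 0 ≤ av U s (fun x => (F x - m) ^ 2) y := av_nonneg h (fun x => sq_nonneg _) y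
  have e : (fun x => (F x - m) ^ 2) = fun x => (F x ^ 2 - (2 * m) * F x) + m ^ 2 := by
    ext x; ring
  rw [e, av_add h (hF.sq.sub ((GC.const (2 * m)).mul hF)) (GC.const (m ^ 2)),
    av_sub h hF.sq ((GC.const (2 * m)).mul hF), av_const_mul h, av_const h, ← hm] at h1
  nlinarith

theorem dec_cov {U : E → ℝ} {s : ℝ} (h : Adm U s) {F G : E → ℝ} (hF : GC F) (hG : GC G) (y : E) :
    (av U s (fun x => F x * G x) y - av U s F y * av U s G y) ^ 2 ≤
      (av U s (fun x => F x ^ 2) y - av U s F y ^ 2) *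
        (av U s (fun x => G x ^ 2) y - av U s G y ^ 2) := by
  have hq : ∀ r : ℝ, 0 ≤ (av U s (fun x => G x ^ 2) y - av U s G y ^ 2) * (r * r) +
      (2 * (av U s (fun x => F x * G x) y - av U s F y * av U s G y)) * r +
      (av U s (fun x => F x ^ 2) y - av U s F y ^ 2) := by
    intro r
    have h1 := dec_var h (hF.add ((GC.const r).mul hG)) y
    have e : (fun x => (F x + r * G x) ^ 2) =
        fun x => (F x ^ 2 + (2 * r) * (F x * G x)) + r ^ 2 * (G x ^ 2) := by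
      ext x; ring
    rw [e, av_add h (hF.sq.add ((GC.const (2 * r)).mul (hF.mul hG)))
      ((GC.const (r ^ 2)).mul hG.sq), av_add h hF.sq ((GC.const (2 * r)).mul (hF.mul hG)),
      av_const_mul h, av_const_mul h, av_add h hF ((GC.const r).mul hG), av_const_mul h] at h1
    nlinarith
  have hd := discrim_le_zero hq
  unfold discrim at hd
  nlinarith

theorem dec_gpc {W : E → ℝ} {τ C' : ℝ} (hW : Pot W τ C') : GPC (mu W) (1 / τ) := by
  refine gpc_of_coer (stdOrthonormalBasis ℝ E) hW hW.pos fun u hu => ?_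
  have h1 := bochner (stdOrthonormalBasis ℝ E) (q := fun _ => τ) hW.smooth continuous_const
    hW.hess (hu.1.of_le (by norm_cast)) hu.2
  rw [integral_const_mul] at h1
  have h2 : 0 ≤ ∫ x, (∑ i, ‖fderiv ℝ (D (stdOrthonormalBasis ℝ E i) u) x‖ ^ 2) ∂(mu W) :=
    integral_nonneg fun x => Finset.sum_nonneg fun i _ => sq_nonneg _
  exact (le_add_of_nonneg_left h2).trans h1

end lemmas

theorem dec_thm (E : Type) [NormedAddCommGroup E] [InnerProductSpace ℝ E]
    [FiniteDimensional ℝ E] [MeasurableSpace E] [BorelSpace E] (hDAV : DAVStmt E)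
    (hGRO : GROStmt E) (hFUB : FUBStmt E) (hEXT : EXTStmt E) (hVAR : VARStmt E)
    (hHES : HESStmt E) : DECStmt E := by
  intro U t C s Λ hU hP hs hΛ hG f hf hfc
  have hA : Adm U s := adm_of_pot hU hs
  have ht := hU.pos
  obtain ⟨C', hWW⟩ := (hHES U t C s hU hs).1
  have hPW : IsProbabilityMeasure (mu (WW U s)) := (hFUB U t C s hU hs (fun _ => 0)
    (GC.const 0)).2.2 hP
  -- bounds for `f`
  have hfcont : Continuous f := hf.continuous
  have hdcont : Continuous (fun x => ‖fderiv ℝ f x‖) :=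
    (hf.continuous_fderiv (by norm_num)).norm
  obtain ⟨A, hAb⟩ := hfc.exists_bound_of_continuous hfcont
  obtain ⟨M, hMb⟩ := (hfc.fderiv (𝕜 := ℝ)).exists_bound_of_continuous
    (hf.continuous_fderiv (by norm_num))
  have hGCf : GC f := ⟨hfcont, Gr.of_bdd (A := A) fun x => hAb x⟩
  have hGCd : GC (fun x => ‖fderiv ℝ f x‖) :=
    ⟨hdcont, Gr.of_bdd (A := M) fun x => by rw [abs_norm]; exact hMb x⟩
  have hM0 : 0 ≤ M := (norm_nonneg _).trans (hMb 0)
  -- the local inequality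
  have hloc : ∀ y, av U s (fun x => f x ^ 2) y - av U s f y ^ 2 ≤
      1 / (t + s) * av U s (fun x => ‖fderiv ℝ f x‖ ^ 2) y := by
    intro y
    have hp := np_pot (pot_add_quad hU hs.le y).1
    have hpr := prob_np hA y
    have h1 := dec_gpc hp f hf hfc
    have h2 : (mu (np U s y)).real univ = 1 := by simp
    rw [h2, int_np hA, int_np hA, int_np hA, one_mul, one_mul] at h1
    exact h1
  have hts : 0 < t + s := by linarith
  have hdav := hDAV U s hA f hGCf
  have hnn : ∀ y, 0 ≤ av U s (fun x => ‖fderiv ℝ f x‖ ^ 2) y := fun y =>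
    av_nonneg hA (fun x => sq_nonneg _) y
  -- the gradient of the mean
  have hgrad : ∀ y, ‖fderiv ℝ (av U s f) y‖ ^ 2 ≤ av U s (fun x => ‖fderiv ℝ f x‖ ^ 2) y := by
    intro y
    have h1 : ‖fderiv ℝ (av U s f) y‖ ≤ Real.sqrt (av U s (fun x => ‖fderiv ℝ f x‖ ^ 2) y) := by
      refine ContinuousLinearMap.opNorm_le_bound _ (Real.sqrt_nonneg _) fun w => ?_
      rw [hdav.2 y w, Real.norm_eq_abs]
      have h2 := dec_cov hA hGCf (dec_gc_inner w) y
      have h3 := hVAR (np U s y) (t + s) _ (np_pot (pot_add_quad hU hs.le y).1) (prob_np hA y) w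
      rw [int_np hA, int_np hA] at h3
      have h4 := hloc y
      set V1 := av U s (fun x => f x ^ 2) y - av U s f y ^ 2 with hV1
      set V2 := av U s (fun x => (inner ℝ x w : ℝ) ^ 2) y - av U s (fun x => inner ℝ x w) y ^ 2
        with hV2
      set Q := av U s (fun x => ‖fderiv ℝ f x‖ ^ 2) y with hQ
      have h5 : 0 ≤ V1 := sub_nonneg.2 (dec_var hA hGCf y)
      have h6 : 0 ≤ V2 := sub_nonneg.2 (dec_var hA (dec_gc_inner w) y)
      have h7 : V1 * V2 ≤ (1 / (t + s) * Q) * (‖w‖ ^ 2 / (t + s)) :=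
        mul_le_mul h4 h3 h6 (by have := hnn y; positivity)
      have h8 : (s * (av U s (fun x => f x * inner ℝ x w) y -
          av U s f y * av U s (fun x => inner ℝ x w) y)) ^ 2 ≤ Q * ‖w‖ ^ 2 := by
        rw [mul_pow]
        have h9 : s ^ 2 * (av U s (fun x => f x * inner ℝ x w) y -
          av U s f y * av U s (fun x => inner ℝ x w) y) ^ 2 ≤
            s ^ 2 * ((1 / (t + s) * Q) * (‖w‖ ^ 2 / (t + s))) :=
          mul_le_mul_of_nonneg_left (h2.trans h7) (sq_nonneg s)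
        refine h9.trans ?_
        have e : s ^ 2 * ((1 / (t + s) * Q) * (‖w‖ ^ 2 / (t + s))) =
            (s / (t + s)) ^ 2 * (Q * ‖w‖ ^ 2) := by
          field_simp
        rw [e]
        have h10 : s / (t + s) ≤ 1 := by rw [div_le_one hts]; linarith
        have h11 : 0 ≤ s / (t + s) := by positivity
        have h12 : (s / (t + s)) ^ 2 ≤ 1 := by nlinarith
        have h13 : 0 ≤ Q * ‖w‖ ^ 2 := by have := hnn y; positivity
        nlinarith
      have h14 := Real.abs_le_sqrt h8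
      rw [Real.sqrt_mul (hnn y), Real.sqrt_sq (norm_nonneg w)] at h14
      exact h14
    calc ‖fderiv ℝ (av U s f) y‖ ^ 2 ≤
        Real.sqrt (av U s (fun x => ‖fderiv ℝ f x‖ ^ 2) y) ^ 2 :=
          pow_le_pow_left₀ (norm_nonneg _) h1 2
      _ = _ := Real.sq_sqrt (hnn y)
  have hQM : ∀ y, av U s (fun x => ‖fderiv ℝ f x‖ ^ 2) y ≤ M ^ 2 := by
    intro y
    have h1 := av_mono hA hGCd.sq (GC.const (M ^ 2)) (fun x =>
      pow_le_pow_left₀ (norm_nonneg _) (hMb x) 2) y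
    rwa [av_const hA] at h1
  have hgrd : Gr (fun y => ‖fderiv ℝ (av U s f) y‖) := by
    refine Gr.of_bdd (A := M) fun y => ?_
    rw [abs_norm]
    exact le_of_sq_le_sq ((hgrad y).trans (hQM y)) hM0
  have hgav : GC (av U s f) := hGRO U s hA f hGCf
  have hgQ : GC (av U s (fun x => ‖fderiv ℝ f x‖ ^ 2)) := hGRO U s hA _ hGCd.sq
  have hgf2 : GC (av U s (fun x => f x ^ 2)) := hGRO U s hA _ hGCf.sq
  have hext := hEXT (WW U s) _ C' Λ hWW hPW hG (av U s f) hdav.1 hgav.2 hgrd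
  have hgdc : GC (fun y => ‖fderiv ℝ (av U s f) y‖ ^ 2) :=
    GC.sq (F := fun y => ‖fderiv ℝ (av U s f) y‖)
      ⟨(hdav.1.continuous_fderiv (by norm_num)).norm, hgrd⟩
  have h20 : ∫ y, ‖fderiv ℝ (av U s f) y‖ ^ 2 ∂(mu (WW U s)) ≤
      ∫ x, ‖fderiv ℝ f x‖ ^ 2 ∂(mu U) := by
    rw [← (hFUB U t C s hU hs _ hGCd.sq).1]
    exact integral_mono (hgdc.integrable hWW) (hgQ.integrable hWW) hgrad
  have h21 : ∫ y, (av U s (fun x => f x ^ 2) y - av U s f y ^ 2) ∂(mu (WW U s)) ≤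
      1 / (t + s) * ∫ x, ‖fderiv ℝ f x‖ ^ 2 ∂(mu U) := by
    rw [← (hFUB U t C s hU hs _ hGCd.sq).1, ← integral_const_mul]
    exact integral_mono ((hgf2.sub hgav.sq).integrable hWW)
      ((hgQ.integrable hWW).const_mul _) hloc
  rw [integral_sub (hgf2.integrable hWW) (hgav.sq.integrable hWW),
    (hFUB U t C s hU hs _ hGCf.sq).1] at h21
  rw [(hFUB U t C s hU hs _ hGCf).1] at hext
  have h22 : (mu U).real univ = 1 := by simp
  rw [h22, one_mul, one_mul]
  have h23 : 0 ≤ ∫ x, ‖fderiv ℝ f x‖ ^ 2 ∂(mu U) := integral_nonneg fun x => sq_nonneg _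
  have h24 : Λ * ∫ y, ‖fderiv ℝ (av U s f) y‖ ^ 2 ∂(mu (WW U s)) ≤
      Λ * ∫ x, ‖fderiv ℝ f x‖ ^ 2 ∂(mu U) := mul_le_mul_of_nonneg_left h20 hΛ
  have h25 : 1 / (t + s) ≤ 1 / s := one_div_le_one_div_of_le hs (by linarith)
  have h26 := mul_le_mul_of_nonneg_right h25 h23
  have h27 : (Λ + 1 / s) * ∫ x, ‖fderiv ℝ f x‖ ^ 2 ∂(mu U) =
      Λ * (∫ x, ‖fderiv ℝ f x‖ ^ 2 ∂(mu U)) + 1 / s * ∫ x, ‖fderiv ℝ f x‖ ^ 2 ∂(mu U) := by ring
  rw [h27]
  linarith

end Pool.Agent.H19.KL
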