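import Pool.Agent.H19.KL.Stmts

set_option autoImplicit false

open MeasureTheory Set
open scoped ContDiff

namespace Pool.Agent.H19.KL

open Pool.Agent.H84 Pool.Agent.H84.Sym Pool.Agent.H84.Sym.P2x Pool.Agent.H84.Sym.C29

theorem mlb_thm (E : Type) [NormedAddCommGroup E] [InnerProductSpace ℝ E]
    [FiniteDimensional ℝ E] [MeasurableSpace E] [BorelSpace E] : MLBStmt E := by
  intro U s hA hs1 c D X β hc hc0 hD hD1 hX hX0 hβ hlow y
  have hs : 0 < s := hA.1
  have hsβ : 0 < s * β := mul_pos hs hβ
  have hh : GC (fun x => c x * (s * β) / (c x + s * β)) := by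
    refine ⟨?_, Gr.of_bdd (A := s * β) fun x => ?_⟩
    · exact (hc.mul continuous_const).div (hc.add continuous_const)
        fun x => (add_pos (hc0 x) hsβ).ne'
    · have h1 := hc0 x
      have h2 : 0 < c x + s * β := add_pos h1 hsβ
      rw [abs_of_nonneg (by positivity), div_le_iff₀ h2]
      nlinarith [mul_pos hsβ hsβ]
  have hg : GC (fun x => D x * (1 + X x ^ 2 / s)) := by
    refine hD.mul ((GC.const 1).add ?_)
    have := hX.sq.mul (GC.const (H := E) s⁻¹)
    simpa [div_eq_mul_inv] using this
  have hpt : ∀ x, β * X x ^ 2 ≤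
      2 * (c x * (s * β) / (c x + s * β)) * (D x * (1 + X x ^ 2 / s)) := by
    intro x
    have h1 := hc0 x
    have h2 : 0 < c x + s * β := add_pos h1 hsβ
    have h3 := hD1 x
    have h4 := hX0 x
    have h5 := hlow x
    have e : 2 * (c x * (s * β) / (c x + s * β)) * (D x * (1 + X x ^ 2 / s)) =
        2 * c x * β * D x * (s + X x ^ 2) / (c x + s * β) := by
      field_simp
    rw [e, le_div_iff₀ h2]
    -- β X² (c + s β) ≤ 2 c β D (s + X²)
    have h6 : X x ^ 2 * c x ≤ c x * D x * X x ^ 2 := by
      have : 0 ≤ X x ^ 2 * c x := by positivity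
      nlinarith
    have h7 : s * (c x * D x * X x ^ 2) ≤ c x * D x * X x ^ 2 := by
      have : 0 ≤ c x * D x * X x ^ 2 := by positivity
      nlinarith
    have h8 : s * (β * X x ^ 2) ≤ s * (c x * (D x * (1 + X x ^ 2))) :=
      mul_le_mul_of_nonneg_left h5 hs.le
    have h9 : X x ^ 2 * c x + s * (β * X x ^ 2) ≤ 2 * c x * D x * (s + X x ^ 2) := by
      have : 0 ≤ s * (c x * D x) := by positivity
      nlinarith
    nlinarith
  have hq : ∀ t : ℝ, 0 ≤ (2 / β * av U s (fun x => c x * (s * β) / (c x + s * β)) y) * (t * t) +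
      (-2 * av U s X y) * t + av U s (fun x => D x * (1 + X x ^ 2 / s)) y := by
    intro t
    have h1 : av U s (fun x => 2 * t * X x) y ≤
        av U s (fun x => (t ^ 2 * (2 / β)) * (c x * (s * β) / (c x + s * β)) +
          D x * (1 + X x ^ 2 / s)) y := by
      apply av_mono hA ((GC.const (2 * t)).mul hX) (((GC.const (t ^ 2 * (2 / β))).mul hh).add hg)
      intro x
      have h2 := hpt x
      set g := D x * (1 + X x ^ 2 / s) with hgdef
      set h := c x * (s * β) / (c x + s * β) with hhdef
      have hg0 : 0 < g := by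
        have := hD1 x
        have h3 : 0 ≤ X x ^ 2 / s := by positivity
        rw [hgdef]
        nlinarith
      have h3 : X x ^ 2 / g ≤ 2 / β * h := by
        rw [div_le_iff₀ hg0]
        have : X x ^ 2 = (β * X x ^ 2) / β := by field_simp
        rw [this, div_le_iff₀ hβ]
        calc β * X x ^ 2 ≤ 2 * h * g := h2
          _ = 2 / β * h * g * β := by field_simp
      have h4 : 2 * t * X x ≤ t ^ 2 * (X x ^ 2 / g) + g := by
        have h5 : 0 ≤ (t * X x - g) ^ 2 / g := by positivity
        have h6 : (t * X x - g) ^ 2 / g = t ^ 2 * (X x ^ 2 / g) + g - 2 * t * X x := by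
          field_simp
          ring
        linarith
      have h5 := mul_le_mul_of_nonneg_left h3 (sq_nonneg t)
      nlinarith
    rw [av_const_mul hA, av_add hA ((GC.const (t ^ 2 * (2 / β))).mul hh) hg,
      av_const_mul hA] at h1
    nlinarith
  have hd := discrim_le_zero hq
  unfold discrim at hd
  have h10 : av U s X y ^ 2 ≤ 2 / β * av U s (fun x => c x * (s * β) / (c x + s * β)) y *
      av U s (fun x => D x * (1 + X x ^ 2 / s)) y := by nlinarith
  have h11 := mul_le_mul_of_nonneg_left h10 hβ.le
  have h12 : ∀ A B : ℝ, β * (2 / β * A * B) = 2 * A * B := by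
    intro A B
    field_simp
  rw [h12] at h11
  exact h11

end Pool.Agent.H19.KL
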