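import Pool.Agent.H19.KL.Stmts

set_option autoImplicit false

open MeasureTheory Set
open scoped ContDiff

namespace Pool.Agent.H19.KL

open Pool.Agent.H84 Pool.Agent.H84.Sym Pool.Agent.H84.Sym.P2x Pool.Agent.H84.Sym.C29

section lemmas

variable {E : Type*} [NormedAddCommGroup E] [InnerProductSpace ℝ E]
    [FiniteDimensional ℝ E] [MeasurableSpace E] [BorelSpace E]

theorem st1_jensen {V F : E → ℝ} {t C : ℝ} (hV : Pot V t C) (hP : IsProbabilityMeasure (mu V))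
    (hF : GC F) : (∫ x, F x ∂(mu V)) ^ 2 ≤ ∫ x, F x ^ 2 ∂(mu V) := by
  set m := ∫ x, F x ∂(mu V) with hm
  have h1 : 0 ≤ ∫ x, (F x - m) ^ 2 ∂(mu V) := integral_nonneg fun x => sq_nonneg _
  have e : (fun x => (F x - m) ^ 2) = fun x => (F x ^ 2 - (2 * m) * F x) + m ^ 2 := by
    ext x; ring
  have i1 : Integrable (fun x => F x ^ 2) (mu V) := hF.sq.integrable hV
  have i2 : Integrable (fun x => (2 * m) * F x) (mu V) := (hF.integrable hV).const_mul _
  have i3 : Integrable (fun x => F x ^ 2 - (2 * m) * F x) (mu V) := i1.sub i2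
  rw [e, integral_add i3 (integrable_const _), integral_sub i1 i2, integral_const_mul,
    ← hm] at h1
  simp only [integral_const, probReal_univ, smul_eq_mul, one_mul] at h1
  nlinarith

/-- translation formula -/
theorem st1_trans (s : ℝ) (F : E → ℝ) (y : E) :
    NI (fun _ => 0) s F y = ∫ z, F (z + y) * Real.exp (-(s * ‖z‖ ^ 2 / 2)) := by
  unfold NI pt
  rw [← integral_add_right_eq_self (fun x => F x * Real.exp (-(0 + s * ‖x - y‖ ^ 2 / 2))) y]
  simp only [add_sub_cancel_right, zero_add]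

theorem st1_one (s : ℝ) (y : E) : NI (fun _ => 0) s (fun _ => 1) y = gs E s := by
  rw [st1_trans]
  unfold gs
  simp

/-- a positive function whose logarithm is Lipschitz, averaged over the noise -/
theorem st1_avle {s ℓ : ℝ} (hs : 0 < s) {G : E → ℝ} (hG : GC G)
    (hlip : ∀ x y, G x ≤ Real.exp (ℓ * ‖x - y‖) * G y) (x y : E) :
    av (fun _ => 0) s G x ≤ Real.exp (ℓ * ‖x - y‖) * av (fun _ => 0) s G y := by
  have hA := adm_zero (E := E) hs
  have hg := gs_pos (E := E) hs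
  unfold av
  rw [st1_one, st1_one, mul_div_assoc', div_le_div_iff_of_pos_right hg, st1_trans, st1_trans,
    ← integral_const_mul]
  have i1 : ∀ y : E, Integrable (fun z => G (z + y) * Real.exp (-(s * ‖z‖ ^ 2 / 2))) := by
    intro y
    have h1 := NI_int hA hG y
    have h2 := h1.comp_add_right y
    refine h2.congr (Filter.Eventually.of_forall fun z => ?_)
    simp only [pt, add_sub_cancel_right, zero_add]
  refine integral_mono (i1 x) ((i1 y).const_mul _) fun z => ?_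
  have h3 := hlip (z + x) (z + y)
  have e : z + x - (z + y) = x - y := by abel
  rw [e] at h3
  have h4 := mul_le_mul_of_nonneg_right h3 (Real.exp_pos (-(s * ‖z‖ ^ 2 / 2))).le
  simp only
  calc _ ≤ _ := h4
    _ = _ := by ring

theorem st1_pos {s : ℝ} {U : E → ℝ} (hA : Adm U s) {G : E → ℝ} (hG : GC G) (h0 : ∀ x, 0 < G x)
    (y : E) : 0 < av U s G y := by
  refine div_pos ?_ (NI_one_pos hA y)
  unfold NI
  rw [integral_pos_iff_support_of_nonneg (fun x => (mul_pos (h0 x) (Real.exp_pos _)).le)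
    (NI_int hA hG y)]
  have : (Function.support fun x => G x * Real.exp (-pt U s y x)) = univ := by
    ext x
    simp [(h0 x).ne', (Real.exp_pos _).ne']
  rw [this]
  exact Measure.measure_univ_pos.2 (NeZero.ne (volume : Measure E))

end lemmas

theorem st1_thm (E : Type) [NormedAddCommGroup E] [InnerProductSpace ℝ E]
    [FiniteDimensional ℝ E] [MeasurableSpace E] [BorelSpace E] (hDAV : DAVStmt E)
    (hGRO : GROStmt E) (hCON : CONStmt E) (hFUB : FUBStmt E) (hLIP : LIPStmt E)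
    (hEXP : EXPStmt E) (hHES : HESStmt E) : ST1Stmt E := by
  intro U t C L hU hP hL hG X hX hX0 Γ m s₀ hΓ hrev hm hmX hs hLs
  have hA : Adm U s₀ := adm_of_pot hU hs
  have hA0 : Adm (fun _ : E => (0 : ℝ)) s₀ := adm_zero hs
  obtain ⟨C', hWW⟩ := (hHES U t C s₀ hU hs).1
  have hPW : IsProbabilityMeasure (mu (WW U s₀)) := (hFUB U t C s₀ hU hs (fun _ => 0)
    (GC.const 0)).2.2 hP
  set M : E → ℝ := av U s₀ X with hM
  have hM0 : ∀ y, 0 < M y := fun y => av_pos' hU hs hX hX0 (hm.trans_le hmX) y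
  have hMG : GC M := hGRO U s₀ hA X hX
  have hlip := hLIP U t C s₀ hU hs X hX hX0 hM0 Γ (by linarith) (fun y => hrev s₀ y hs)
  set ℓ := 4 * Real.sqrt (Γ * s₀) with hℓ
  have hℓ0 : 0 ≤ ℓ := by positivity
  have hℓ2 : ℓ ^ 2 = 16 * (Γ * s₀) := by
    rw [hℓ, mul_pow, Real.sq_sqrt (by positivity)]
    norm_num
  set F : E → ℝ := fun y => 4 * Real.log (M y) with hF
  have hFc : Continuous F := continuous_const.mul (hMG.1.log fun y => (hM0 y).ne')
  have hFl : ∀ x y, |F x - F y| ≤ ℓ * ‖x - y‖ := by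
    intro x y
    have h1 := hlip x y
    have e : F x - F y = 4 * (Real.log (M x) - Real.log (M y)) := by rw [hF]; ring
    rw [e, abs_mul, abs_of_pos (by norm_num : (0:ℝ) < 4), hℓ, mul_assoc]
    exact mul_le_mul_of_nonneg_left h1 (by norm_num)
  have hexpF : ∀ x, Real.exp (F x) = M x ^ 4 := by
    intro x
    simp only [hF]
    have : (4 : ℝ) * Real.log (M x) = ((4 : ℕ) : ℝ) * Real.log (M x) := by norm_num
    rw [this, Real.exp_nat_mul, Real.exp_log (hM0 x)]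
  have hexpF' : ∀ x, Real.exp (-F x) = (M x ^ 4)⁻¹ := by
    intro x
    rw [Real.exp_neg, hexpF]
  have hM4 : GC (fun x => M x ^ 4) := by
    have := hMG.sq.sq
    refine (congrArg GC ?_).mp this
    ext x
    ring
  have hcon := hCON U t C hU F ℓ hFc hℓ0 hFl
  have hM4i : GC (fun x => (M x ^ 4)⁻¹) := by
    have := hcon.2.1
    simp only [hexpF'] at this
    exact this
  set Φ : E → ℝ := av (fun _ => 0) s₀ (fun x => M x ^ 4) with hΦ
  have hΦ0 : ∀ y, 0 < Φ y := fun y => st1_pos hA0 hM4 (fun x => pow_pos (hM0 x) 4) y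
  have hΦG : GC Φ := hGRO _ s₀ hA0 _ hM4
  -- the product at a point
  have hprod : ∀ x, av (fun _ => 0) s₀ (fun x => (M x ^ 4)⁻¹) x ≤ Real.exp (16 * Γ) * (Φ x)⁻¹ := by
    intro x
    have h1 := hCON (np (fun _ => 0) s₀ x) s₀ _ (np_pot (pot_gauss hs x)) F ℓ hFc hℓ0 hFl
    have h2 := h1.2.2
    have h3 := prob_np hA0 x
    simp only [hexpF, hexpF', int_np hA0, probReal_univ] at h2
    rw [hℓ2] at h2
    have h4 : 16 * (Γ * s₀) / s₀ = 16 * Γ := by field_simp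
    rw [h4, one_pow, mul_one] at h2
    rw [← div_eq_mul_inv, le_div_iff₀ (hΦ0 x), mul_comm]
    exact h2
  -- the Lipschitz property of `log Φ`
  have hΦle : ∀ x y, Φ x ≤ Real.exp (ℓ * ‖x - y‖) * Φ y := by
    refine st1_avle hs hM4 fun x y => ?_
    rw [← hexpF, ← hexpF, ← Real.exp_add]
    apply Real.exp_le_exp.2
    have := (abs_le.1 (hFl x y)).2
    linarith
  set ψ : E → ℝ := fun x => Real.log (Φ x) with hψ
  have hψc : ContDiff ℝ 1 ψ := (hDAV _ s₀ hA0 _ hM4).1.log fun x => (hΦ0 x).ne'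
  have hψ1 : ∀ x y, ψ x - ψ y ≤ ℓ * ‖x - y‖ := by
    intro x y
    have h1 := Real.log_le_log (hΦ0 x) (hΦle x y)
    rw [Real.log_mul (Real.exp_pos _).ne' (hΦ0 y).ne', Real.log_exp] at h1
    simp only [hψ]
    linarith
  have hψl : ∀ x y, |ψ x - ψ y| ≤ ℓ * ‖x - y‖ := by
    intro x y
    rw [abs_le]
    refine ⟨?_, hψ1 x y⟩
    have h2 := hψ1 y x
    rw [norm_sub_rev] at h2
    linarith
  have hψd : ∀ x, ‖fderiv ℝ ψ x‖ ≤ ℓ := by
    intro x
    have h1 : LipschitzWith ⟨ℓ, hℓ0⟩ ψ := LipschitzWith.of_dist_le_mul fun a b => by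
      rw [Real.dist_eq, dist_eq_norm]
      exact hψl a b
    exact norm_fderiv_le_of_lipschitz ℝ h1
  have hL2 : L * ℓ ^ 2 ≤ 1 := by
    rw [hℓ2]
    calc L * (16 * (Γ * s₀)) = 16 * Γ * L * s₀ := by ring
      _ ≤ 1 := hLs
  have hexp := hEXP U t C L hU hP hL hG ψ ℓ hψc hℓ0 hψd hL2
  have e1 : ∀ x, Real.exp (ψ x) = Φ x := fun x => Real.exp_log (hΦ0 x)
  have e2 : ∀ x, Real.exp (-ψ x) = (Φ x)⁻¹ := fun x => by rw [Real.exp_neg, e1]
  have hcψ := (hCON U t C hU ψ ℓ hψc.continuous hℓ0 hψl).2.1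
  simp only [e1, e2] at hexp hcψ
  -- the mean of `Φ`
  have h10 : ∫ x, Φ x ∂(mu U) = ∫ y, M y ^ 4 ∂(mu (WW U s₀)) :=
    ((hFUB U t C s₀ hU hs _ hM4).2.1).symm
  have h11 : m ^ 4 ≤ ∫ x, Φ x ∂(mu U) := by
    rw [h10]
    have j1 := st1_jensen hWW hPW hMG
    have j2 := st1_jensen hWW hPW hMG.sq
    have j3 : ∫ y, M y ∂(mu (WW U s₀)) = ∫ x, X x ∂(mu U) := (hFUB U t C s₀ hU hs X hX).1
    rw [j3] at j1
    have j4 : m ^ 2 ≤ ∫ y, M y ^ 2 ∂(mu (WW U s₀)) :=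
      (pow_le_pow_left₀ hm.le hmX 2).trans j1
    have j5 : (m ^ 2) ^ 2 ≤ ∫ y, (M y ^ 2) ^ 2 ∂(mu (WW U s₀)) :=
      (pow_le_pow_left₀ (by positivity) j4 2).trans j2
    have e3 : (fun y => (M y ^ 2) ^ 2) = fun y => M y ^ 4 := by ext y; ring
    rw [e3] at j5
    calc m ^ 4 = (m ^ 2) ^ 2 := by ring
      _ ≤ _ := j5
  have hm4 : 0 < m ^ 4 := by positivity
  have h12 : ∫ x, (Φ x)⁻¹ ∂(mu U) ≤ Real.exp 2 / m ^ 4 := by
    rw [le_div_iff₀ hm4]
    have h13 : 0 ≤ ∫ x, (Φ x)⁻¹ ∂(mu U) := integral_nonneg fun x => (inv_pos.2 (hΦ0 x)).le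
    calc (∫ x, (Φ x)⁻¹ ∂(mu U)) * m ^ 4 ≤ (∫ x, (Φ x)⁻¹ ∂(mu U)) * ∫ x, Φ x ∂(mu U) :=
          mul_le_mul_of_nonneg_left h11 h13
      _ = (∫ x, Φ x ∂(mu U)) * ∫ x, (Φ x)⁻¹ ∂(mu U) := mul_comm _ _
      _ ≤ Real.exp 2 := hexp
  calc ∫ y, (M y ^ 4)⁻¹ ∂(mu (WW U s₀)) =
      ∫ x, av (fun _ => 0) s₀ (fun x => (M x ^ 4)⁻¹) x ∂(mu U) :=
        (hFUB U t C s₀ hU hs _ hM4i).2.1
    _ ≤ ∫ x, Real.exp (16 * Γ) * (Φ x)⁻¹ ∂(mu U) :=
        integral_mono ((hGRO _ s₀ hA0 _ hM4i).integrable hU) ((hcψ.integrable hU).const_mul _) hprod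
    _ = Real.exp (16 * Γ) * ∫ x, (Φ x)⁻¹ ∂(mu U) := integral_const_mul _ _
    _ ≤ Real.exp (16 * Γ) * (Real.exp 2 / m ^ 4) :=
        mul_le_mul_of_nonneg_left h12 (Real.exp_pos _).le
    _ = Real.exp (16 * Γ + 2) / m ^ 4 := by rw [Real.exp_add]; ring

end Pool.Agent.H19.KL
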